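import Mathlib
import Pool.Agent.U209.BX.Stm

/-!
# Project BX (helper209), package STBC: the next point of the circle, oscillation over one period
-/

set_option autoImplicit false

namespace Pool.Agent.U723.BX

open Polynomial Complex Finset Filter Topology MeasureTheory ComplexConjugate Metric
open Pool.Agent.U209.BX

/-- the modulus of the bump -/
noncomputable def ph (z0 : ℂ) (N : ℕ) (z : ℂ) : ℝ := (‖1 + z * conj z0‖ / 2) ^ (2 * N)

theorem ph_cont (z0 : ℂ) (N : ℕ) : Continuous (ph z0 N) := by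
  unfold ph
  fun_prop

theorem ph_self (z0 : ℂ) (N : ℕ) (h : ‖z0‖ = 1) : ph z0 N z0 = 1 := by
  have h1 : z0 * conj z0 = 1 := by
    rw [Complex.mul_conj, Complex.normSq_eq_norm_sq, h]; norm_num
  unfold ph
  rw [h1]
  have : ‖(1 + 1 : ℂ)‖ = 2 := by norm_num
  rw [this]; norm_num

theorem ev (hB : S_BUMP) (z0 z : ℂ) (N : ℕ) (h0 : ‖z0‖ = 1) (hz : ‖z‖ = 1) :
    (bump z0 N).eval z = z ^ N * (ph z0 N z : ℂ) := (hB.1 z0 z N h0 hz).1

theorem K_cont (hK : S_KK) (u : ℂ[X]) (hu : ZF u) : ContinuousOn (K u) (closedBall 0 1) := by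
  obtain ⟨C, ρ, hρ, hC⟩ := (hK u hu).1
  have h1 : Summable (fun n : ℕ => C * (ρ⁻¹) ^ n) :=
    (summable_geometric_of_lt_one (by positivity) (inv_lt_one_of_one_lt₀ hρ)).mul_left C
  have h2 : ContinuousOn (fun z : ℂ => ∑' n, Kc u n * z ^ n) (closedBall 0 1) := by
    refine continuousOn_tsum (fun n => by fun_prop) h1 ?_
    intro n z hz
    have hz' : ‖z‖ ≤ 1 := by simpa using hz
    rw [norm_mul, norm_pow]
    calc ‖Kc u n‖ * ‖z‖ ^ n ≤ ‖Kc u n‖ * 1 :=
          mul_le_mul_of_nonneg_left (pow_le_one₀ (norm_nonneg _) hz') (norm_nonneg _)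
      _ ≤ C * (ρ⁻¹) ^ n := by rw [mul_one]; exact hC n
  exact h2

theorem norm_exp_sub (α β : ℝ) :
    ‖Complex.exp (β * I) - Complex.exp (α * I)‖ ≤ |β - α| := by
  have h1 : Complex.exp (β * I) - Complex.exp (α * I) =
      Complex.exp (α * I) * (Complex.exp (I * ((β - α : ℝ) : ℂ)) - 1) := by
    rw [mul_sub, ← Complex.exp_add, mul_one]
    congr 2
    push_cast
    ring
  rw [h1, norm_mul, Complex.norm_exp_ofReal_mul_I, one_mul]
  exact Real.norm_exp_I_mul_ofReal_sub_one_le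

theorem eq_exp_arg (z0 : ℂ) (h : ‖z0‖ = 1) : Complex.exp (arg z0 * I) = z0 := by
  have := Complex.norm_mul_exp_arg_mul_I z0
  rw [h] at this
  simpa using this

theorem next (z0 : ℂ) (h : ‖z0‖ = 1) (q : ℕ) (hq : 0 < q) :
    ∃ z1 : ℂ, ‖z1‖ = 1 ∧ z1 ^ q = 1 ∧ ‖z1 - z0‖ ≤ 2 * Real.pi / q := by
  have h0 := eq_exp_arg z0 h
  set α : ℝ := arg z0 with hα
  set k : ℤ := ⌊α * q / (2 * Real.pi)⌋ with hk
  have hq' : (0:ℝ) < q := by exact_mod_cast hq
  have hpi : 0 < 2 * Real.pi := by positivity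
  set β : ℝ := 2 * Real.pi * k / q with hβ
  refine ⟨Complex.exp (β * I), Complex.norm_exp_ofReal_mul_I β, ?_, ?_⟩
  · rw [← Complex.exp_nat_mul]
    have h1 : (q : ℂ) * (β * I) = (k : ℂ) * (2 * Real.pi * I) := by
      have hq2 : (q : ℂ) ≠ 0 := by exact_mod_cast hq.ne'
      rw [hβ]
      push_cast
      field_simp
    rw [h1, Complex.exp_int_mul_two_pi_mul_I]
  · rw [← h0]
    refine (norm_exp_sub α β).trans ?_
    have h2 : (k : ℝ) ≤ α * q / (2 * Real.pi) := Int.floor_le _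
    have h3 : α * q / (2 * Real.pi) < k + 1 := Int.lt_floor_add_one _
    rw [le_div_iff₀ hpi] at h2
    rw [div_lt_iff₀ hpi] at h3
    have h4 : (β - α) * q = 2 * Real.pi * k - α * q := by
      rw [hβ]; field_simp
    rw [le_div_iff₀ hq', ← abs_of_pos hq', ← abs_mul, h4, abs_le]
    constructor <;> nlinarith

theorem exists_Q (δ : ℝ) (hδ : 0 < δ) : ∃ Q0 : ℕ, 0 < Q0 ∧ ∀ q : ℕ, Q0 ≤ q → 2 * Real.pi / q < δ := by
  obtain ⟨n, hn⟩ := exists_nat_gt (2 * Real.pi / δ)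
  have hn0 : (0:ℝ) < n := lt_of_le_of_lt (by positivity) hn
  refine ⟨n, by exact_mod_cast hn0, fun q hq => ?_⟩
  have hq' : (n : ℝ) ≤ q := by exact_mod_cast hq
  have hq0 : (0:ℝ) < q := lt_of_lt_of_le hn0 hq'
  rw [div_lt_iff₀ hδ] at hn
  rw [div_lt_iff₀ hq0]
  nlinarith

theorem t_STB : S_BUMP → S_KK → S_STB := by
  intro hB hK u hu z0 h0 b N ε hε
  have hu0 : u.eval z0 ≠ 0 := hu z0 h0.le
  have hz0 : z0 ∈ closedBall (0:ℂ) 1 := by simp [h0]
  have c0 : ContinuousWithinAt (K u) (closedBall 0 1) z0 := K_cont hK u hu z0 hz0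
  have cu : ContinuousAt (fun z => u.eval z) z0 := u.continuous.continuousAt
  have cp : ContinuousAt (fun z => (ph z0 N z : ℂ)) z0 :=
    (Complex.continuous_ofReal.comp (ph_cont z0 N)).continuousAt
  have p0 := ph_self z0 N h0
  have e1 : ∀ᶠ z in 𝓝 z0, ‖u.eval z + b * (ph z0 N z : ℂ) - (u.eval z0 + b)‖ < ε := by
    have c1 : ContinuousAt (fun z => ‖u.eval z + b * (ph z0 N z : ℂ) - (u.eval z0 + b)‖) z0 :=
      ((cu.add (continuousAt_const.mul cp)).sub continuousAt_const).norm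
    refine c1.eventually_lt continuousAt_const ?_
    simp [p0, hε]
  have e2 : ∀ᶠ z in 𝓝[closedBall 0 1] z0, ‖K u z - K u z0‖ < ε := by
    have c1 : ContinuousWithinAt (fun z => ‖K u z - K u z0‖) (closedBall 0 1) z0 :=
      (c0.sub continuousWithinAt_const).norm
    have h1 : Tendsto (fun z => ‖K u z - K u z0‖) (𝓝[closedBall 0 1] z0) (𝓝 ‖K u z0 - K u z0‖) := c1
    rw [sub_self, norm_zero] at h1
    exact h1.eventually (gt_mem_nhds hε)
  have e3 : ∀ᶠ z in 𝓝 z0, ‖2 * conj (u.eval z) / (u.eval z) ^ 3 * (b * (ph z0 N z : ℂ)) -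
      2 * conj (u.eval z0) / (u.eval z0) ^ 3 * b‖ < ε := by
    have c1 : ContinuousAt (fun z => ‖2 * conj (u.eval z) / (u.eval z) ^ 3 * (b * (ph z0 N z : ℂ)) -
      2 * conj (u.eval z0) / (u.eval z0) ^ 3 * b‖) z0 := by
      refine ContinuousAt.norm (ContinuousAt.sub (ContinuousAt.mul (ContinuousAt.div
        (continuousAt_const.mul (Complex.continuous_conj.continuousAt.comp cu)) (cu.pow 3)
        (pow_ne_zero 3 hu0)) (continuousAt_const.mul cp)) continuousAt_const)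
    refine c1.eventually_lt continuousAt_const ?_
    simp [p0, hε]
  have e4 : ∀ᶠ z in 𝓝 z0, 20 * ‖b * (ph z0 N z : ℂ)‖ ^ 2 / ‖u.eval z‖ ^ 3 <
      20 * ‖b‖ ^ 2 / ‖u.eval z0‖ ^ 3 + ε := by
    have c1 : ContinuousAt (fun z => 20 * ‖b * (ph z0 N z : ℂ)‖ ^ 2 / ‖u.eval z‖ ^ 3) z0 := by
      refine ContinuousAt.div (continuousAt_const.mul ((continuousAt_const.mul cp).norm.pow 2))
        (cu.norm.pow 3) (pow_ne_zero 3 (norm_ne_zero_iff.2 hu0))
    refine c1.eventually_lt continuousAt_const ?_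
    simp [p0, hε]
  have e5 : ∀ᶠ z in 𝓝[closedBall 0 1] z0,
      ‖u.eval z + b * (ph z0 N z : ℂ) - (u.eval z0 + b)‖ < ε ∧ ‖K u z - K u z0‖ < ε ∧
      ‖2 * conj (u.eval z) / (u.eval z) ^ 3 * (b * (ph z0 N z : ℂ)) -
      2 * conj (u.eval z0) / (u.eval z0) ^ 3 * b‖ < ε ∧
      20 * ‖b * (ph z0 N z : ℂ)‖ ^ 2 / ‖u.eval z‖ ^ 3 < 20 * ‖b‖ ^ 2 / ‖u.eval z0‖ ^ 3 + ε := by
    filter_upwards [nhdsWithin_le_nhds e1, e2, nhdsWithin_le_nhds e3, nhdsWithin_le_nhds e4] with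
      z h1 h2 h3 h4
    exact ⟨h1, h2, h3, h4⟩
  obtain ⟨δ, hδ, H⟩ := Metric.mem_nhdsWithin_iff.1 e5
  obtain ⟨Q0, hQ0, HQ⟩ := exists_Q δ hδ
  refine ⟨Q0, fun Q hQ => ?_⟩
  obtain ⟨z1, hz1, hz1q, hz1d⟩ := next z0 h0 (Q + N) (by omega)
  have hmem : z1 ∈ ball z0 δ ∩ closedBall 0 1 := by
    refine ⟨?_, by simp [hz1]⟩
    rw [mem_ball, dist_eq_norm]
    have := HQ (Q + N) (by omega)
    push_cast at this hz1d
    linarith
  obtain ⟨g1, g2, g3, g4⟩ := H hmem
  have hev : z1 ^ Q * (C b * bump z0 N).eval z1 = b * (ph z0 N z1 : ℂ) := by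
    rw [eval_mul, eval_C, ev hB z0 z1 N h0 hz1]
    calc z1 ^ Q * (b * (z1 ^ N * (ph z0 N z1 : ℂ))) = z1 ^ (Q + N) * (b * (ph z0 N z1 : ℂ)) := by
          rw [pow_add]; ring
      _ = _ := by rw [hz1q, one_mul]
  have hev2 : ‖(C b * bump z0 N).eval z1‖ = ‖b * (ph z0 N z1 : ℂ)‖ := by
    rw [← hev, norm_mul, norm_pow, hz1, one_pow, one_mul]
  refine ⟨z1, hz1, ?_, g2.le, ?_, ?_⟩
  · rw [eval_add, eval_mul, eval_pow, eval_X, hev]
    exact g1.le
  · rw [hev]; exact g3.le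
  · rw [hev2]; exact g4.le

theorem ex_neg_norm (θ : ℝ) : ‖ex θ‖ = 1 := Complex.norm_exp_ofReal_mul_I θ

theorem ex_cont : Continuous ex := by
  unfold ex
  fun_prop

theorem ex_pow (θ : ℝ) (q : ℕ) : ex θ ^ q = ex (q * θ) := by
  unfold ex
  rw [← Complex.exp_nat_mul]
  congr 1
  push_cast
  ring

theorem ex_periodic : Function.Periodic ex (2 * Real.pi) := by
  intro θ
  unfold ex
  push_cast
  rw [add_mul, Complex.exp_add]
  have : Complex.exp (2 * Real.pi * I) = 1 := Complex.exp_two_pi_mul_I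
  rw [this, mul_one]

theorem ex_add_two_pi (θ : ℝ) : ex (θ + 2 * Real.pi) = ex θ := ex_periodic θ

theorem t_STC : S_BUMP → S_OSC → S_STC := by
  intro hB hO u hu z0 h0 b hb N ε hε
  have hu0 : u.eval z0 ≠ 0 := hu z0 h0.le
  set c : ℂ := u.eval z0 with hc
  have hcpos : 0 < ‖c‖ := norm_pos_iff.2 hu0
  have hBlow : ∀ w : ℂ, ‖w‖ = 1 → ‖c‖ * (7 / 8) ≤ ‖c + b * w‖ := by
    intro w hw
    have h1 : ‖c‖ ≤ ‖c + b * w‖ + ‖b * w‖ := by
      calc ‖c‖ = ‖(c + b * w) - b * w‖ := by ring_nf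
        _ ≤ _ := norm_sub_le _ _
    rw [norm_mul b w, hw, mul_one] at h1
    linarith
  set S : Set ℂ := (fun w => c + b * w) '' sphere 0 1 with hS
  have hSc : IsCompact S := (isCompact_sphere (0:ℂ) 1).image (by fun_prop)
  have hS0 : ∀ x ∈ S, x ≠ 0 := by
    rintro x ⟨w, hw, rfl⟩ h
    have hw' : ‖w‖ = 1 := by simpa using hw
    have := hBlow w hw'
    simp only at h
    rw [h, norm_zero] at this
    nlinarith
  set ε' : ℝ := ε / (2 * Real.pi) with hε'
  have hε'pos : 0 < ε' := by positivity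
  have unif := hSc.uniformContinuousAt_of_continuousAt (fun x : ℂ => (x ^ 3)⁻¹)
    (fun a ha => ((continuousAt_id.pow 3).inv₀ (pow_ne_zero 3 (hS0 a ha))))
    (Metric.dist_mem_uniformity hε'pos)
  obtain ⟨η, hη, H⟩ := Metric.mem_uniformity_dist.1 unif
  set η' : ℝ := min η (‖c‖ / 8) with hη'
  have hη'pos : 0 < η' := lt_min hη (by positivity)
  have cu : ContinuousAt (fun z => u.eval z) z0 := u.continuous.continuousAt
  have cp : ContinuousAt (fun z => (ph z0 N z : ℂ)) z0 :=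
    (Complex.continuous_ofReal.comp (ph_cont z0 N)).continuousAt
  have p0 := ph_self z0 N h0
  have e1 : ∀ᶠ z in 𝓝 z0, ‖u.eval z - c‖ + ‖b‖ * ‖(ph z0 N z : ℂ) - 1‖ < η' := by
    have c1 : ContinuousAt (fun z => ‖u.eval z - c‖ + ‖b‖ * ‖(ph z0 N z : ℂ) - 1‖) z0 :=
      (cu.sub continuousAt_const).norm.add (continuousAt_const.mul (cp.sub continuousAt_const).norm)
    refine c1.eventually_lt continuousAt_const ?_
    simp [p0, ← hc, hη'pos]
  obtain ⟨δ, hδ, H1⟩ := Metric.eventually_nhds_iff.1 e1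
  obtain ⟨Q0, hQ0, HQ⟩ := exists_Q δ hδ
  refine ⟨Q0, fun Q hQ => ⟨Q + N, arg z0, by omega, ?_⟩⟩
  set q : ℕ := Q + N with hq
  have hqpos : 0 < q := by omega
  have hq' : (0:ℝ) < q := by exact_mod_cast hqpos
  set α : ℝ := arg z0 with hα
  have hdq : 2 * Real.pi / q < δ := HQ q (by omega)
  have hle : α ≤ α + 2 * Real.pi / q := by
    have : 0 ≤ 2 * Real.pi / q := by positivity
    linarith
  have hev : ∀ z : ℂ, ‖z‖ = 1 → (u + X ^ Q * (C b * bump z0 N)).eval z =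
      u.eval z + b * (ph z0 N z : ℂ) * z ^ q := by
    intro z hz
    rw [eval_add, eval_mul, eval_pow, eval_X, eval_mul, eval_C, ev hB z0 z N h0 hz, hq, pow_add]
    ring
  -- the estimates on the arc
  have harc : ∀ θ ∈ Set.Icc α (α + 2 * Real.pi / q),
      ‖((u + X ^ Q * (C b * bump z0 N)).eval (ex θ)) - (c + b * ex (q * θ))‖ < η' := by
    intro θ hθ
    have h1 : dist (ex θ) z0 < δ := by
      rw [dist_eq_norm]
      have h2 : ‖ex θ - z0‖ ≤ |θ - α| := by
        have := norm_exp_sub α θ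
        rw [eq_exp_arg z0 h0] at this
        exact this
      have h3 : |θ - α| ≤ 2 * Real.pi / q := by
        rw [abs_of_nonneg (by linarith [hθ.1])]
        linarith [hθ.2]
      linarith
    have h2 := H1 h1
    rw [hev _ (ex_neg_norm θ), ex_pow]
    have h3 : u.eval (ex θ) + b * (ph z0 N (ex θ) : ℂ) * ex (q * θ) - (c + b * ex (q * θ)) =
        (u.eval (ex θ) - c) + b * ((ph z0 N (ex θ) : ℂ) - 1) * ex (q * θ) := by ring
    rw [h3]
    refine (norm_add_le _ _).trans_lt ?_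
    rw [norm_mul, norm_mul, ex_neg_norm, mul_one]
    exact h2
  have hne : ∀ θ ∈ Set.Icc α (α + 2 * Real.pi / q),
      (u + X ^ Q * (C b * bump z0 N)).eval (ex θ) ≠ 0 := by
    intro θ hθ h
    have h1 := harc θ hθ
    rw [h, zero_sub, norm_neg] at h1
    have h2 := hBlow (ex (q * θ)) (ex_neg_norm _)
    have h3 : η' ≤ ‖c‖ / 8 := min_le_right _ _
    linarith
  have hclose : ∀ θ ∈ Set.Icc α (α + 2 * Real.pi / q),
      ‖Fn (u + X ^ Q * (C b * bump z0 N)) (ex θ) * ex (-(q * θ)) -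
        ((c + b * ex (q * θ)) ^ 3)⁻¹ * ex (-(q * θ))‖ ≤ ε' := by
    intro θ hθ
    rw [← sub_mul, norm_mul, ex_neg_norm, mul_one]
    have h1 : dist (c + b * ex (q * θ)) ((u + X ^ Q * (C b * bump z0 N)).eval (ex θ)) < η := by
      rw [dist_comm, dist_eq_norm]
      exact (harc θ hθ).trans_le (min_le_left _ _)
    have h2 := H h1 ⟨ex (q * θ), by simp [ex_neg_norm], rfl⟩
    simp only [Set.mem_setOf_eq] at h2
    rw [dist_comm, dist_eq_norm] at h2
    exact h2.le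
  set f : ℝ → ℂ := fun θ => Fn (u + X ^ Q * (C b * bump z0 N)) (ex θ) * ex (-(q * θ)) with hf
  set g : ℝ → ℂ := fun φ => ((c + b * ex φ) ^ 3)⁻¹ * ex (-φ) with hg
  have hgc : Continuous g := by
    have h1 : Continuous fun φ : ℝ => (c + b * ex φ) ^ 3 := by
      have := ex_cont
      fun_prop
    have h2 : Continuous fun φ : ℝ => ((c + b * ex φ) ^ 3)⁻¹ := by
      refine h1.inv₀ (fun φ => pow_ne_zero 3 (hS0 _ ⟨ex φ, by simp [ex_neg_norm], rfl⟩))
    exact h2.mul (ex_cont.comp continuous_neg)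
  have hfi : IntervalIntegrable f volume α (α + 2 * Real.pi / q) := by
    refine ContinuousOn.intervalIntegrable ?_
    rw [Set.uIcc_of_le hle]
    have h1 : ContinuousOn (fun θ : ℝ => ((u + X ^ Q * (C b * bump z0 N)).eval (ex θ)) ^ 3)
        (Set.Icc α (α + 2 * Real.pi / q)) :=
      (((Polynomial.continuous _).comp ex_cont).pow 3).continuousOn
    have h2 := h1.inv₀ (fun θ hθ => pow_ne_zero 3 (hne θ hθ))
    refine h2.mul (ex_cont.comp ?_).continuousOn
    fun_prop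
  have hgi : IntervalIntegrable (fun θ : ℝ => g (q * θ)) volume α (α + 2 * Real.pi / q) := by
    refine Continuous.intervalIntegrable (hgc.comp ?_) _ _
    fun_prop
  have hdiff : ‖(∫ θ in α..(α + 2 * Real.pi / q), f θ) - ∫ θ in α..(α + 2 * Real.pi / q), g (q * θ)‖ ≤
      ε' * (2 * Real.pi / q) := by
    rw [← intervalIntegral.integral_sub hfi hgi]
    have h1 := intervalIntegral.norm_integral_le_of_norm_le_const (a := α) (b := α + 2 * Real.pi / q)
      (C := ε') (f := fun θ => f θ - g (q * θ)) (fun θ hθ => by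
        rw [Set.uIoc_of_le hle] at hθ
        exact hclose θ ⟨hθ.1.le, hθ.2⟩)
    have h2 : |α + 2 * Real.pi / q - α| = 2 * Real.pi / q := by
      rw [add_sub_cancel_left]
      exact abs_of_nonneg (by positivity)
    rw [h2] at h1
    exact h1
  have hsub : (q : ℂ) * ∫ θ in α..(α + 2 * Real.pi / q), g (q * θ) =
      2 * Real.pi * (-3 * b / c ^ 4) := by
    have h1 := intervalIntegral.smul_integral_comp_mul_left (a := α) (b := α + 2 * Real.pi / q) g (q : ℝ)
    have h2 : (q : ℝ) * (α + 2 * Real.pi / q) = q * α + 2 * Real.pi := by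
      field_simp
    rw [h2] at h1
    have hper : Function.Periodic g (2 * Real.pi) := by
      intro φ
      simp only [hg]
      have h3 : ex (-(φ + 2 * Real.pi)) = ex (-φ) := by
        have := ex_add_two_pi (-(φ + 2 * Real.pi))
        rw [← this]
        congr 1
        ring
      rw [ex_add_two_pi, h3]
    have h3 := hper.intervalIntegral_add_eq (q * α) 0
    rw [zero_add] at h3
    rw [h3, hO c b (by nlinarith [norm_nonneg b]) hu0] at h1
    rw [← h1, Complex.real_smul]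
    simp
  have hfin : (q : ℂ) * (∫ θ in α..(α + 2 * Real.pi / q), f θ) - 2 * Real.pi * (-3 * b / c ^ 4) =
      (q : ℂ) * ((∫ θ in α..(α + 2 * Real.pi / q), f θ) -
        ∫ θ in α..(α + 2 * Real.pi / q), g (q * θ)) := by
    rw [mul_sub, hsub]
  have hgoal : ‖(q : ℂ) * (∫ θ in α..(α + 2 * Real.pi / q), f θ) - 2 * Real.pi * (-3 * b / c ^ 4)‖ ≤
      ε := by
    rw [hfin, norm_mul, Complex.norm_natCast]
    calc (q : ℝ) * _ ≤ q * (ε' * (2 * Real.pi / q)) := mul_le_mul_of_nonneg_left hdiff hq'.le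
      _ = ε := by rw [hε']; field_simp
  exact hgoal

end Pool.Agent.U723.BX
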